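import Pool.Agent.Helper56.PC.Transfer

open Filter Topology
open Pool.Agent.Helper57.PC

namespace Pool.Agent.Results.MP_8958e8_nt.TwoLengths

/-- Montgomery's conjecture Q1 follows from upper bounds for windows whose lengths lie in a set `A`
and lower bounds for windows whose lengths lie in a set `B`, as soon as `A ∪ B` generates a dense
subgroup of ℝ; the bounds are only needed for left end points `α` in a dense set `D ℓ` and along a
sequence `τ` with `τ (n+1) / τ n → 1`. -/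
theorem result
    (A B : Set ℝ) (hA : A.Nonempty) (hB : B.Nonempty)
    (hpA : ∀ ℓ ∈ A, 0 < ℓ) (hpB : ∀ ℓ ∈ B, 0 < ℓ)
    (hdense : Dense (AddSubgroup.closure (A ∪ B) : Set ℝ))
    (D : ℝ → Set ℝ) (hD : ∀ ℓ ∈ A ∪ B, Set.Ioi (0 : ℝ) ⊆ closure (D ℓ))
    (τ : ℕ → ℝ) (hτ : Tendsto τ atTop atTop)
    (hτ' : Tendsto (fun n => τ (n + 1) / τ n) atTop (𝓝 1))
    (hU : ∀ ℓ ∈ A, ∀ α ∈ D ℓ, 0 < α → ∀ δ : ℝ, 0 < δ → ∀ᶠ n in atTop,
      pairCount (τ n) α (α + ℓ) ≤
        ((∫ u in α..(α + ℓ), pcDensity u) + δ) * (τ n * Real.log (τ n) / (2 * Real.pi)))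
    (hL : ∀ ℓ ∈ B, ∀ α ∈ D ℓ, 0 < α → ∀ δ : ℝ, 0 < δ → ∀ᶠ n in atTop,
      ((∫ u in α..(α + ℓ), pcDensity u) - δ) * (τ n * Real.log (τ n) / (2 * Real.pi)) ≤
        pairCount (τ n) α (α + ℓ)) :
    ∀ α β : ℝ, 0 < α → α < β →
      Tendsto (fun T : ℝ => pairCount T α β /
        (T * Real.log T / (2 * Real.pi) * ∫ u in α..β, pcDensity u)) atTop (𝓝 1) := by
  intro α β hα hαβ
  have key := Pool.Agent.Helper56.PC.main hτ hτ' hA hB hpA hpB hdense
    (by
      intro ℓ hℓ x hx ε hε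
      have hx' : x + ε / 2 ∈ closure (D ℓ) := hD ℓ (Or.inl hℓ)
        (show (0 : ℝ) < x + ε / 2 by positivity)
      obtain ⟨y, hy, hxy⟩ := Metric.mem_closure_iff.mp hx' (ε / 2) (by positivity)
      rw [Real.dist_eq, abs_lt] at hxy
      exact ⟨y, by linarith [hxy.2], by linarith [hxy.1], hU ℓ hℓ y hy (by linarith [hxy.2])⟩)
    (by
      intro ℓ hℓ x hx ε hε
      have hx' : x + ε / 2 ∈ closure (D ℓ) := hD ℓ (Or.inr hℓ)
        (show (0 : ℝ) < x + ε / 2 by positivity)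
      obtain ⟨y, hy, hxy⟩ := Metric.mem_closure_iff.mp hx' (ε / 2) (by positivity)
      rw [Real.dist_eq, abs_lt] at hxy
      exact ⟨y, by linarith [hxy.2], by linarith [hxy.1], hL ℓ hℓ y hy (by linarith [hxy.2])⟩)
    α β hα hαβ
  have hI : 0 < ∫ u in α..β, pcDensity u := by
    apply intervalIntegral.intervalIntegral_pos_of_pos_on (intervalIntegrable_pcDensity α β) _ hαβ
    intro x hx
    have hx0 : 0 < x := hα.trans hx.1
    have hpx : 0 < Real.pi * x := by have := Real.pi_pos; positivity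
    have h1 : |Real.sin (Real.pi * x)| < Real.pi * x := by
      have := Real.abs_sin_lt_abs hpx.ne'
      rwa [abs_of_pos hpx] at this
    have h2 : |Real.sin (Real.pi * x) / (Real.pi * x)| < 1 := by
      rw [abs_div, abs_of_pos hpx, div_lt_one hpx]
      exact h1
    have h3 : (Real.sin (Real.pi * x) / (Real.pi * x)) ^ 2 < 1 := by
      rw [← sq_abs]
      exact pow_lt_one₀ (abs_nonneg _) h2 two_ne_zero
    unfold pcDensity
    linarith
  have h := key.div_const (∫ u in α..β, pcDensity u)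
  rw [div_self hI.ne'] at h
  refine h.congr ?_
  intro T
  rw [div_div]
  rfl

/-- Two incommensurable lengths suffice: upper bounds for windows of length `a` and lower bounds
for windows of length `b`, with `a / b` irrational, imply Q1. -/
theorem two_lengths
    (a b : ℝ) (ha : 0 < a) (hb : 0 < b) (hab : Irrational (a / b))
    (D₁ D₂ : Set ℝ) (hD₁ : Set.Ioi (0 : ℝ) ⊆ closure D₁) (hD₂ : Set.Ioi (0 : ℝ) ⊆ closure D₂)
    (τ : ℕ → ℝ) (hτ : Tendsto τ atTop atTop)
    (hτ' : Tendsto (fun n => τ (n + 1) / τ n) atTop (𝓝 1))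
    (hU : ∀ α ∈ D₁, 0 < α → ∀ δ : ℝ, 0 < δ → ∀ᶠ n in atTop,
      pairCount (τ n) α (α + a) ≤
        ((∫ u in α..(α + a), pcDensity u) + δ) * (τ n * Real.log (τ n) / (2 * Real.pi)))
    (hL : ∀ α ∈ D₂, 0 < α → ∀ δ : ℝ, 0 < δ → ∀ᶠ n in atTop,
      ((∫ u in α..(α + b), pcDensity u) - δ) * (τ n * Real.log (τ n) / (2 * Real.pi)) ≤
        pairCount (τ n) α (α + b)) :
    ∀ α β : ℝ, 0 < α → α < β →
      Tendsto (fun T : ℝ => pairCount T α β /
        (T * Real.log T / (2 * Real.pi) * ∫ u in α..β, pcDensity u)) atTop (𝓝 1) := by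
  classical
  have hne : a ≠ b := by
    rintro rfl
    rw [div_self ha.ne'] at hab
    exact hab ⟨1, by norm_num⟩
  refine result {a} {b} ⟨a, rfl⟩ ⟨b, rfl⟩ (by rintro ℓ rfl; exact ha) (by rintro ℓ rfl; exact hb)
    ?_ (fun ℓ => if ℓ = a then D₁ else D₂) ?_ τ hτ hτ' ?_ ?_
  · have := dense_addSubgroupClosure_pair_iff.mpr hab
    rwa [Set.singleton_union]
  · rintro ℓ (hℓ | hℓ)
    · rw [Set.mem_singleton_iff] at hℓ
      subst hℓ
      simpa using hD₁
    · rw [Set.mem_singleton_iff] at hℓ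
      subst hℓ
      simpa [hne.symm] using hD₂
  · intro ℓ hℓ α hα
    rw [Set.mem_singleton_iff] at hℓ
    subst hℓ
    rw [if_pos rfl] at hα
    exact hU α hα
  · intro ℓ hℓ α hα
    rw [Set.mem_singleton_iff] at hℓ
    subst hℓ
    rw [if_neg hne.symm] at hα
    exact hL α hα

end Pool.Agent.Results.MP_8958e8_nt.TwoLengths
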